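import Pool.Agent.H53.BS.Poset

/-!
MP_5d910f_co: the gamma polynomial of the barycentric subdivision of a boolean cell complex
(simplicial poset), in particular of a simplicial complex, with symmetric and nonnegative
h-vector is the f-polynomial of a flag complex.
-/

namespace Pool.Agent.Results.MP_5d910f_co.BarycentricSpheres

open Polynomial Finset

universe u

/-- `α` (with least element the empty cell) is a simplicial poset, i.e. the face poset of a
boolean cell complex, with rank function `r`: the interval below `a` is the boolean lattice of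
rank `r a`. -/
def IsSimplicialPoset {α : Type u} [PartialOrder α] (r : α → ℕ) : Prop :=
  ∀ a : α, Nonempty (Set.Iic a ≃o Finset (Fin (r a)))

/-- The h-polynomial (of length `d`) of a simplicial poset with rank function `r`. -/
noncomputable def hPoly {α : Type u} [Fintype α] (r : α → ℕ) (d : ℕ) : ℤ[X] :=
  ∑ a : α, X ^ r a * (1 - X) ^ (d - r a)

/-- The h-polynomial (of length `d`) of a family of finite sets. -/
noncomputable def hPolyC {W : Type u} (Δ : Finset (Finset W)) (d : ℕ) : ℤ[X] :=
  ∑ F ∈ Δ, X ^ F.card * (1 - X) ^ (d - F.card)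

open Classical in
/-- The faces of the barycentric subdivision of the complex with face poset `α`: the chains of
nonempty cells. -/
noncomputable def sdFaces (α : Type u) [Fintype α] [PartialOrder α] [OrderBot α] :
    Finset (Finset α) :=
  univ.filter (fun C => ⊥ ∉ C ∧ IsChain (· ≤ ·) (C : Set α))

open Classical in
/-- The polynomial `Σ_i f_{i-1}(Γ) x^i (1+x)^(d-2i)`, where `Γ` is the clique complex of `G`. -/
noncomputable def gammaSum {V : Type} [Fintype V] (G : SimpleGraph V) (d : ℕ) : ℤ[X] :=
  ∑ T ∈ univ.filter (fun T : Finset V => G.IsClique (T : Set V)),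
    X ^ T.card * (1 + X) ^ (d - 2 * T.card)

/-- `h` is of the form `Σ_i γ_i x^i (1+x)^(d-2i)` where `Σ_i γ_i x^i` is the f-polynomial of a
flag complex (the clique complex of a finite graph), all of whose faces have at most `d/2`
vertices. -/
def GammaIsFlag (h : ℤ[X]) (d : ℕ) : Prop :=
  ∃ (V : Type) (_ : Fintype V) (G : SimpleGraph V),
    (∀ T : Finset V, G.IsClique (T : Set V) → 2 * T.card ≤ d) ∧ h = gammaSum G d

theorem aux {α : Type u} [Fintype α] [PartialOrder α] [OrderBot α] (d : ℕ) (r : α → ℕ)
    (hr : IsSimplicialPoset r) (hd : ∀ a, r a ≤ d)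
    (hnonneg : ∀ j, 0 ≤ (hPoly r d).coeff j)
    (hsymm : ∀ j, j ≤ d → (hPoly r d).coeff j = (hPoly r d).coeff (d - j)) :
    GammaIsFlag (hPolyC (sdFaces α) d) d := by
  classical
  have hdeg : (hPoly r d).natDegree < d + 1 := by
    refine Nat.lt_succ_of_le (natDegree_sum_le_of_forall_le _ _ fun a _ => ?_)
    have h1 : ((1 : ℤ[X]) - X).natDegree ≤ 1 := by
      refine (natDegree_sub_le _ _).trans ?_
      simp
    have h2 : (((1 : ℤ[X]) - X) ^ (d - r a)).natDegree ≤ (d - r a) * 1 :=
      natDegree_pow_le_of_le _ h1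
    have h3 : ((X : ℤ[X]) ^ r a).natDegree ≤ r a := by simp
    have := natDegree_mul_le_of_le h3 h2
    have hda := hd a
    omega
  have hh : ∑ a, (X : ℤ[X]) ^ r a * (1 - X) ^ (d - r a)
      = ∑ j ∈ range (d + 1), (((hPoly r d).coeff j).toNat : ℤ[X]) * X ^ j := by
    have := as_sum_range' (hPoly r d) (d + 1) hdeg
    refine this.trans (Finset.sum_congr rfl fun j _ => ?_)
    rw [← C_mul_X_pow_eq_monomial]
    congr 1
    obtain ⟨n, hn⟩ : ∃ n : ℕ, (hPoly r d).coeff j = n :=
      ⟨_, (Int.toNat_of_nonneg (hnonneg j)).symm⟩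
    rw [hn]
    simp
  obtain ⟨V, _, G, h1, h2⟩ := Pool.Agent.H53.BS.main_poset r hr d hd
    (fun j => ((hPoly r d).coeff j).toNat) hh (fun j hj => by rw [hsymm j hj])
  exact ⟨V, inferInstance, G, h1, h2⟩

/-- Barycentric subdivisions of boolean cell complexes (simplicial posets), in particular of
simplicial complexes, satisfy the Nevo-Petersen statement as soon as the h-vector of the
subdivided complex is symmetric and nonnegative. -/
theorem result (α : Type u) [Fintype α] [PartialOrder α] [OrderBot α] (d : ℕ) (r : α → ℕ) :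
    IsSimplicialPoset r → (∀ a, r a ≤ d) →
    (∀ j, 0 ≤ (hPoly r d).coeff j) →
    (∀ j, j ≤ d → (hPoly r d).coeff j = (hPoly r d).coeff (d - j)) →
    GammaIsFlag (hPolyC (sdFaces α) d) d :=
  fun hr hd h1 h2 => aux d r hr hd h1 h2

end Pool.Agent.Results.MP_5d910f_co.BarycentricSpheres
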