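import Pool.Agent.H44.NP
import Pool.Agent.H64.CabHS

/-!
MP_5d910f_co: the gamma polynomial of a flag homology `2r`-sphere one of whose gamma numbers is
close to the Turan bound is the f-polynomial of a flag complex.
-/

namespace Pool.Agent.Results.MP_5d910f_co.NearTuran

open Finset Polynomial Pool.Agent.H44 Pool.Agent.H64.CabHS

universe u v

theorem result (r : ℕ) :
    ∃ η : ℝ, 0 < η ∧ ∃ n₀ : ℕ, ∀ (k : Type v) [CommRing k] [IsDomain k] (V : Type u) [Fintype V]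
      [LinearOrder V] (G : SimpleGraph V),
      HomSphere k G (2 * r + 1) → n₀ ≤ Fintype.card V →
      (∃ h γ : ℕ → ℤ, IsHVector (2 * r + 1) (faceNum G) h ∧ IsGammaVector (2 * r + 1) h γ) ∧
      ∀ h γ : ℕ → ℤ, IsHVector (2 * r + 1) (faceNum G) h → IsGammaVector (2 * r + 1) h γ →
        (∃ i : ℕ, 2 ≤ i ∧ i ≤ r ∧
          (r.choose i : ℝ) * ((γ 1 : ℝ) / r) ^ i - η * (γ 1 : ℝ) ^ (i - 1) ≤ (γ i : ℝ)) →
        ∃ (N : ℕ) (Γ : SimpleGraph (Fin N)), Γ.Colorable r ∧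
          ∀ l, (faceNum Γ l : ℤ) = if l ≤ r then γ l else 0 := by
  classical
  obtain ⟨η, hη, N0, hN0⟩ := np_main.{u} r
  refine ⟨η, hη, N0, ?_⟩
  intro k _ _ V _ _ G hS hn
  have hE : Eul G (2 * r + 1) := hS.eul
  obtain ⟨γ0, hγ0⟩ := hE.exists_gamma
  have hG1 := trunc_eq G hγ0
  refine ⟨?_, ?_⟩
  · obtain ⟨h, hh1, hh2⟩ := gamma_bwd (hG1.trans hγ0)
    exact ⟨h, γ0, hh1, hh2⟩
  · rintro h γ a1 a2 ⟨i, h2, hi, hyp⟩
    have b1 := gamma_fwd a1 a2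
    rw [hG1] at b1
    exact hN0 V G γ i hE hn b1 h2 hi hyp

end Pool.Agent.Results.MP_5d910f_co.NearTuran
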